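import Pool.Agent.J4H95.SP.Def

/-! (CNT) the number of small subsets. -/

set_option autoImplicit false

namespace Pool.Agent.J4H45.SP

open Finset

theorem t_CNT : Pool.Agent.J4H95.SP.S_CNT := by
  intro ε hε
  obtain ⟨y, hy⟩ : ∃ y : ℝ, y = (2 : ℝ) ^ (ε / 2) := ⟨_, rfl⟩
  have hy1 : 1 < y := by rw [hy]; exact Real.one_lt_rpow (by norm_num) (by positivity)
  obtain ⟨x, hx⟩ : ∃ x : ℝ, x = min 1 (y - 1) := ⟨_, rfl⟩
  have hx0 : 0 < x := by rw [hx]; exact lt_min one_pos (by linarith)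
  have hx1 : x ≤ 1 := by rw [hx]; exact min_le_left _ _
  have hxy : 1 + x ≤ y := by
    have : x ≤ y - 1 := by rw [hx]; exact min_le_right _ _
    linarith
  have hlx : Real.log x ≤ 0 := Real.log_nonpos hx0.le hx1
  obtain ⟨γ, hγ⟩ : ∃ γ : ℝ, γ = Real.log y / (1 - Real.log x) := ⟨_, rfl⟩
  have hly : 0 < Real.log y := Real.log_pos hy1
  have hγ0 : 0 < γ := by rw [hγ]; exact div_pos hly (by linarith)
  have hγx : x ^ (-γ) ≤ y := by
    rw [Real.rpow_def_of_pos hx0, ← Real.le_log_iff_exp_le (by linarith)]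
    have h1 : γ * (1 - Real.log x) = Real.log y := by
      rw [hγ]
      exact div_mul_cancel₀ _ (by linarith)
    nlinarith
  refine ⟨γ, hγ0, fun V _ _ => ?_⟩
  obtain ⟨n, hn⟩ : ∃ n : ℕ, n = Fintype.card V := ⟨_, rfl⟩
  rw [← hn]
  have h1 : ((univ.filter (fun Z : Finset V => (Z.card : ℝ) ≤ γ * n)).card : ℝ) ≤
      ∑ Z : Finset V, x ^ Z.card * (x ^ (-γ)) ^ n := by
    rw [Finset.card_eq_sum_ones]
    push_cast
    rw [Finset.sum_filter]
    refine Finset.sum_le_sum fun Z _ => ?_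
    split_ifs with h
    · have e : x ^ Z.card * (x ^ (-γ)) ^ n = x ^ ((Z.card : ℝ) - γ * n) := by
        rw [← Real.rpow_natCast (x ^ (-γ)) n, ← Real.rpow_mul hx0.le, ← Real.rpow_natCast x Z.card,
          ← Real.rpow_add hx0]
        congr 1
        ring
      rw [e]
      exact Real.one_le_rpow_of_pos_of_le_one_of_nonpos hx0 hx1 (by linarith)
    · positivity
  refine h1.trans ?_
  rw [← Finset.sum_mul]
  have h2 : ∑ Z : Finset V, x ^ Z.card = (1 + x) ^ n := by
    have h := Fintype.sum_pow_mul_eq_add_pow V x 1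
    simp only [one_pow, mul_one] at h
    rw [h, hn, add_comm]
  rw [h2]
  have h3 : (1 + x) ^ n ≤ y ^ n := pow_le_pow_left₀ (by linarith) hxy n
  have h4 : (x ^ (-γ)) ^ n ≤ y ^ n := pow_le_pow_left₀ (by positivity) hγx n
  have h5 : (2 : ℝ) ^ (ε * (n : ℝ)) = y ^ n * y ^ n := by
    rw [hy, ← mul_pow, ← Real.rpow_add (by norm_num), ← Real.rpow_natCast, ← Real.rpow_mul (by norm_num)]
    congr 1
    ring
  rw [h5]
  exact mul_le_mul h3 h4 (by positivity) (by positivity)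

end Pool.Agent.J4H45.SP
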